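import Pool.Agent.Lib.MP_c6b127_co.AF.Geo

/-!
Thick generalised quadrangles with a group having an abelian point-transitive normal subgroup:
a line orbit containing all or exactly half of the lines forces order `(3, 5)` or `(15, 17)`.
-/

set_option autoImplicit false

namespace Pool.Agent.Results.MP_c6b127_co.AffineType

open Pool.Agent.Lib.MP_c6b127_co.AF

theorem result :
    ∀ (P L : Type) [Finite P] [Finite L] (I : P → L → Prop) (s t : ℕ),
      2 ≤ s → 2 ≤ t →
      (∀ l : L, Set.ncard {p : P | I p l} = s + 1) →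
      (∀ p : P, Set.ncard {l : L | I p l} = t + 1) →
      (∀ (p q : P) (l m : L), I p l → I q l → I p m → I q m → p = q ∨ l = m) →
      (∀ (p : P) (l : L), ¬ I p l → ∃! x : P × L, I p x.2 ∧ I x.1 x.2 ∧ I x.1 l) →
      ∀ (G : Type) [Group G] [MulAction G P] [MulAction G L],
        (∀ (g : G) (p : P) (l : L), I (g • p) (g • l) ↔ I p l) →
        ∀ N : Subgroup G, N.Normal →
          (∀ a ∈ N, ∀ b ∈ N, ∀ p : P, a • b • p = b • a • p) →
          (∀ p q : P, ∃ a ∈ N, a • p = q) →
          ∀ l : L, (Set.ncard (MulAction.orbit G l) = Nat.card L ∨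
              2 * Set.ncard (MulAction.orbit G l) = Nat.card L) →
            (s, t) = (3, 5) ∨ (s, t) = (15, 17) := by
  intro P L _ _ I s t hs ht hl hp h2 hq G _ _ _ hI N hN hc htr l hd
  obtain ⟨o, -⟩ := Set.nonempty_of_ncard_ne_zero (s := {p : P | I p l}) (by rw [hl]; omega)
  obtain ⟨inst, hτ, hadd⟩ := exists_add N hN hc htr o
  choose τ hτ using hτ
  refine Quad.main (τ := τ) ⟨hs, ht, hl, hp, h2, hq, hI, hτ, hadd⟩ l ?_
  rcases hd with hd | hd
  · exact hd ▸ Dvd.intro_left 2 rfl
  · exact hd ▸ dvd_rfl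

end Pool.Agent.Results.MP_c6b127_co.AffineType
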