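import Pool.Agent.Lib.MP_c6b127_co.Quad

/-!
A thick generalised quadrangle with a point-primitive group having two line orbits of
different sizes.
-/

set_option autoImplicit false

namespace Pool.Agent.Results.MP_c6b127_co.TwoOrbits

open scoped Pointwise

/-- The axioms of a generalised quadrangle of order `(s, t)`. -/
structure IsGQ {P L : Type} (I : P → L → Prop) (s t : ℕ) : Prop where
  pts : ∀ l : L, Nat.card {p : P // I p l} = s + 1
  lines : ∀ p : P, Nat.card {l : L // I p l} = t + 1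
  two : ∀ p q : P, p ≠ q → ∀ l m : L, I p l → I q l → I p m → I q m → l = m
  gq : ∀ (p : P) (l : L), ¬ I p l → ∃! x : P × L, I p x.2 ∧ I x.1 x.2 ∧ I x.1 l

open Pool.Agent.Lib.MP_c6b127_co

section

variable {F : Type} [Field F] [Fintype F] [hF : Fact (Fintype.card F = 32)]

theorem transl_orbit (d : D F) (a : V F) : mkL d a ∈ MulAction.orbit (grp F) (mkL d 0) := by
  refine ⟨⟨Equiv.addLeft a, transl_mem a⟩, Subtype.ext ?_⟩
  show Equiv.addLeft a • line d 0 = line d a
  ext x
  constructor
  · rintro ⟨_, ⟨t, rfl⟩, rfl⟩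
    exact ⟨t, by simp⟩
  · rintro ⟨t, rfl⟩
    exact ⟨0 + t • dir d, ⟨t, rfl⟩, by simp⟩

omit [Fintype F] hF in
theorem lin_orbit (e : V F ≃ₗ[F] V F) (he : e.toEquiv ∈ grp F) {d d' : D F}
    (h : e (dir d) = dir d') : mkL d' 0 ∈ MulAction.orbit (grp F) (mkL d 0) := by
  refine ⟨⟨e.toEquiv, he⟩, Subtype.ext ?_⟩
  show e.toEquiv • line d 0 = line d' 0
  ext x
  constructor
  · rintro ⟨_, ⟨t, rfl⟩, rfl⟩
    exact ⟨t, by simp [h]⟩
  · rintro ⟨t, rfl⟩
    exact ⟨0 + t • dir d, ⟨t, rfl⟩, by simp [h]⟩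

omit [Fintype F] hF in
theorem orbit_trans {l m n : Ln F} (h : l ∈ MulAction.orbit (grp F) m)
    (h' : m ∈ MulAction.orbit (grp F) n) : l ∈ MulAction.orbit (grp F) n := by
  rwa [← MulAction.orbit_eq_iff.2 h']

theorem orbit_spec : MulAction.orbit (grp F) (mkL (Sum.inl 0) 0 : Ln F) =
    {l : Ln F | (l : Set (V F)) ∈ linesOf (spec : Set (D F))} := by
  ext l
  refine ⟨fun hl => (spec_orbit hl).2 ⟨_, by simp [spec], 0, rfl⟩, ?_⟩
  rintro ⟨d, hd, a, h⟩
  obtain rfl : l = mkL d a := Subtype.ext h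
  refine orbit_trans (transl_orbit d a) ?_
  have h1 : (mkL (Sum.inr true) 0 : Ln F) ∈ MulAction.orbit (grp F) (mkL (Sum.inl 0) 0) :=
    lin_orbit (shift F) shift_mem (by ext <;> simp [shift, dir])
  rcases hd with rfl | rfl | rfl
  · exact MulAction.mem_orbit_self _
  · exact orbit_trans (lin_orbit (shift F) shift_mem (by ext <;> simp [shift, dir])) h1
  · exact h1

theorem orbit_compl : MulAction.orbit (grp F) (mkL (Sum.inl 1) 0 : Ln F) =
    {l : Ln F | (l : Set (V F)) ∈ linesOf (specᶜ : Set (D F))} := by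
  ext l
  constructor
  · intro hl
    refine (compl_iff l).2 fun h => (compl_iff _).1 ?_ ((spec_orbit hl).1 h)
    exact ⟨_, by simp [spec], 0, rfl⟩
  · rintro ⟨d, hd, a, h⟩
    obtain rfl : l = mkL d a := Subtype.ext h
    refine orbit_trans (transl_orbit d a) ?_
    rcases d with t | _ | _
    · have ht : t ≠ 0 := by simpa [spec] using hd
      exact lin_orbit (diag 1 t one_ne_zero ht) (diag_mem 1 t one_ne_zero ht)
        (by ext <;> simp [diag, dir])
    · simp [spec] at hd
    · simp [spec] at hd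

end

/-- A generalised quadrangle of order `(31, 33)` and a group acting faithfully on it by
automorphisms, primitively on points, whose line orbits are two, of sizes `3072` and `31744`. -/
theorem result : ∃ (P L : Type) (I : P → L → Prop) (G : Type) (_ : Group G) (_ : MulAction G P)
    (_ : MulAction G L), Nat.card P = 32768 ∧ Nat.card L = 34816 ∧ IsGQ I 31 33 ∧
      (∀ (g : G) (p : P) (l : L), I (g • p) (g • l) ↔ I p l) ∧ FaithfulSMul G P ∧
      MulAction.IsPreprimitive G P ∧
      ∃ l₁ l₂ : L, (∀ l : L, l ∈ MulAction.orbit G l₁ ∨ l ∈ MulAction.orbit G l₂) ∧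
        (MulAction.orbit G l₁).ncard = 3072 ∧ (MulAction.orbit G l₂).ncard = 31744 := by
  let F : Type := GaloisField 2 5
  let _ : Fintype F := Fintype.ofFinite F
  have hF : Fact (Fintype.card F = 32) := ⟨by
    have := GaloisField.card 2 5 (by norm_num)
    rw [Nat.card_eq_fintype_card] at this
    simpa using this⟩
  have c0 := count (Set.univ : Set (D F))
  have c1 := count (spec : Set (D F))
  have c2 := count (specᶜ : Set (D F))
  rw [Set.ncard_univ, card_D, Set.eq_univ_of_forall (s := {l : Ln F |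
    (l : Set (V F)) ∈ linesOf (Set.univ : Set (D F))}) fun l => l.2, Set.ncard_univ] at c0
  rw [ncard_spec] at c1
  rw [ncard_spec_compl] at c2
  refine ⟨V F, Ln F, fun p l => p ∈ (l : Set (V F)), grp F, inferInstance, inferInstance,
    inferInstance, ?_, by omega, ⟨ncard_pts, ncard_lines, fun p q hpq l m h1 h2 h3 h4 =>
      (two_points p q l m h1 h2 h3 h4).resolve_left hpq, gq_axiom⟩,
    fun g p l => Set.smul_mem_smul_set_iff, inferInstance, preprim,
    mkL (Sum.inl 0) 0, mkL (Sum.inl 1) 0, fun l => ?_, ?_, ?_⟩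
  · rw [Nat.card_prod, Nat.card_prod, Nat.card_eq_fintype_card, hF.out]
  · rw [orbit_spec, orbit_compl, Set.mem_ofPred_eq, Set.mem_ofPred_eq, compl_iff]
    exact em _
  · rw [orbit_spec]
    omega
  · rw [orbit_compl]
    omega

end Pool.Agent.Results.MP_c6b127_co.TwoOrbits
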